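import Pool.Agent.Lib.H62u.HB.HB_Top
set_option autoImplicit false
namespace H62
theorem HB_chkB : blk (qmean (nat_lit 14)) 10 HB_root = true := by decide +kernel
end H62
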