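import Pool.Agent.Lib.H62u.HB.HB_Chk0
import Pool.Agent.Lib.H62u.HB.HB_Chk1
import Pool.Agent.Lib.H62u.HB.HB_Chk2
import Pool.Agent.Lib.H62u.HB.HB_ChkB
set_option autoImplicit false
namespace H62
end H62
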