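import Pool.Agent.Lib.H62u.HB.HB_0
import Pool.Agent.Lib.H62u.HB.HB_1
import Pool.Agent.Lib.H62u.HB.HB_2
set_option autoImplicit false
set_option linter.all false
namespace H62
noncomputable def HB_c0 : (Tri (Tri (Tri (Tri (Tri (Tri (Tri (Tri (Tri B0))))))))) := ⟨⟨⟨
HB_0,HB_27,HB_54⟩,⟨
HB_9,HB_36,HB_63⟩,⟨
HB_18,HB_45,HB_72⟩⟩,⟨⟨
HB_3,HB_30,HB_57⟩,⟨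
HB_12,HB_39,HB_66⟩,⟨
HB_21,HB_48,HB_75⟩⟩,⟨⟨
HB_6,HB_33,HB_60⟩,⟨
HB_15,HB_42,HB_69⟩,⟨
HB_24,HB_51,HB_78⟩⟩⟩
noncomputable def HB_c1 : (Tri (Tri (Tri (Tri (Tri (Tri (Tri (Tri (Tri B0))))))))) := ⟨⟨⟨
HB_1,HB_28,HB_55⟩,⟨
HB_10,HB_37,HB_64⟩,⟨
HB_19,HB_46,HB_73⟩⟩,⟨⟨
HB_4,HB_31,HB_58⟩,⟨
HB_13,HB_40,HB_67⟩,⟨
HB_22,HB_49,HB_76⟩⟩,⟨⟨
HB_7,HB_34,HB_61⟩,⟨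
HB_16,HB_43,HB_70⟩,⟨
HB_25,HB_52,HB_79⟩⟩⟩
noncomputable def HB_c2 : (Tri (Tri (Tri (Tri (Tri (Tri (Tri (Tri (Tri B0))))))))) := ⟨⟨⟨
HB_2,HB_29,HB_56⟩,⟨
HB_11,HB_38,HB_65⟩,⟨
HB_20,HB_47,HB_74⟩⟩,⟨⟨
HB_5,HB_32,HB_59⟩,⟨
HB_14,HB_41,HB_68⟩,⟨
HB_23,HB_50,HB_77⟩⟩,⟨⟨
HB_8,HB_35,HB_62⟩,⟨
HB_17,HB_44,HB_71⟩,⟨
HB_26,HB_53,HB_80⟩⟩⟩
noncomputable def HB_root : (Tri (Tri (Tri (Tri (Tri (Tri (Tri (Tri (Tri (Tri B0)))))))))) := ⟨HB_c0,HB_c1,HB_c2⟩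
end H62
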